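import Pool.Agent.Lib.MP_f0c028_an.Mg.G002
import Pool.Agent.Lib.MP_f0c028_an.Mg.G005

set_option autoImplicit false

/-! # F3: all weights (as GW14) -/

open Real

namespace Pool.Agent.Lib.MP_f0c028_an.SQ

open Pool.Agent.Lib.MP_f0c028_an.GW

open MeasureTheory Set Filter Topology
open scoped ENNReal InnerProductSpace

/-- the truncated weight -/
private noncomputable def tw (w : ℂ → ℝ) (N : ℝ) (z : ℂ) : ℝ := max (min (w z) N) N⁻¹

private theorem tw_bw {w : ℂ → ℝ} (hwm : Measurable w) {N : ℝ} (hN : 1 ≤ N) : Bw (tw w N) N where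
  meas := (hwm.min measurable_const).max measurable_const
  pos := by linarith
  le z := max_le (min_le_right _ _) ((inv_le_one_of_one_le₀ hN).trans hN)
  ge z := le_max_right _ _

private theorem tw_le {w : ℂ → ℝ} {N : ℝ} (hN : 1 ≤ N) {z : ℂ} (hz : 0 < w z) :
    tw w N z ≤ min (w z) N + N⁻¹ := by
  have h0 : 0 < N := by linarith
  have h1 : 0 < N⁻¹ := inv_pos.mpr h0
  have h2 : 0 < min (w z) N := lt_min hz h0
  exact max_le (by linarith) (by linarith)

private theorem tw_inv_le {w : ℂ → ℝ} {N : ℝ} (hN : 1 ≤ N) {z : ℂ} (hz : 0 < w z) :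
    (tw w N z)⁻¹ ≤ min (w z)⁻¹ N + N⁻¹ := by
  have h0 : 0 < N := by linarith
  have h1 : 0 < N⁻¹ := inv_pos.mpr h0
  have h2 : 0 < min (w z)⁻¹ N := lt_min (inv_pos.mpr hz) h0
  unfold tw
  rcases le_total (w z) N with h3 | h3
  · rw [min_eq_left h3]
    rcases le_total (w z) N⁻¹ with h4 | h4
    · rw [max_eq_right h4, inv_inv]
      have h5 : N ≤ (w z)⁻¹ := by
        rw [le_inv_comm₀ h0 hz]
        exact h4
      rw [min_eq_right h5]
      linarith
    · rw [max_eq_left h4]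
      have h5 : (w z)⁻¹ ≤ N := by
        rw [inv_le_comm₀ hz h0]
        exact h4
      rw [min_eq_left h5]
      linarith
  · rw [min_eq_right h3, max_eq_left ((inv_le_one_of_one_le₀ hN).trans hN)]
    linarith

private theorem avg_aux {u v : ℂ → ℝ} {N : ℝ} (hN : 1 ≤ N) (hum : Measurable u)
    (hu : ∀ z, 0 < u z) (hui : LocallyIntegrable u volume) (hvm : Measurable v)
    (hv0 : ∀ z, 0 ≤ v z) (hv : ∀ z, v z ≤ min (u z) N + N⁻¹) (c : ℂ) {r : ℝ} (hr : 0 < r) :
    ∃ a : ℝ, 0 ≤ a ∧ a ≤ N ∧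
      a ≤ (∫ z in Metric.ball c r, u z) / (volume (Metric.ball c r)).toReal ∧
      (∫ z in Metric.ball c r, v z) / (volume (Metric.ball c r)).toReal ≤ a + N⁻¹ ∧
      0 ≤ (∫ z in Metric.ball c r, v z) / (volume (Metric.ball c r)).toReal := by
  have h0 : 0 < N := by linarith
  have h1 : 0 < N⁻¹ := inv_pos.mpr h0
  have hV : 0 < (volume (Metric.ball c r)).toReal := by
    rw [vol_ball c hr]
    positivity
  have hfin : volume (Metric.ball c r) ≠ ⊤ := measure_ball_lt_top.ne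
  have hmm : Measurable fun z => min (u z) N := hum.min measurable_const
  have hmin0 : ∀ z, 0 ≤ min (u z) N := fun z => (lt_min (hu z) h0).le
  have hmi : IntegrableOn (fun z => min (u z) N) (Metric.ball c r) := by
    refine Integrable.mono' (integrableOn_const hfin (C := N)) hmm.aestronglyMeasurable ?_
    refine ae_of_all _ fun z => ?_
    rw [Real.norm_eq_abs, abs_of_nonneg (hmin0 z)]
    exact min_le_right _ _
  have hci : IntegrableOn (fun _ : ℂ => N⁻¹) (Metric.ball c r) := integrableOn_const hfin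
  have hvi : IntegrableOn v (Metric.ball c r) := by
    refine Integrable.mono' (hmi.add hci) hvm.aestronglyMeasurable ?_
    refine ae_of_all _ fun z => ?_
    rw [Real.norm_eq_abs, abs_of_nonneg (hv0 z)]
    exact hv z
  refine ⟨(∫ z in Metric.ball c r, min (u z) N) / (volume (Metric.ball c r)).toReal, ?_, ?_, ?_,
    ?_, ?_⟩
  · exact div_nonneg (integral_nonneg hmin0) hV.le
  · rw [div_le_iff₀ hV]
    have h2 : ∫ z in Metric.ball c r, min (u z) N ≤ ∫ z in Metric.ball c r, N :=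
      integral_mono hmi (integrableOn_const hfin) fun z => min_le_right _ _
    rw [setIntegral_const, smul_eq_mul, mul_comm] at h2
    exact h2
  · refine div_le_div_of_nonneg_right ?_ hV.le
    exact integral_mono hmi (intOn_ball hui c r) fun z => min_le_left _ _
  · rw [div_le_iff₀ hV]
    have h2 : ∫ z in Metric.ball c r, v z ≤ ∫ z in Metric.ball c r, (min (u z) N + N⁻¹) :=
      integral_mono hvi (hmi.add hci) hv
    rw [integral_add hmi hci, setIntegral_const, smul_eq_mul] at h2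
    rw [add_mul, div_mul_cancel₀ _ hV.ne']
    refine h2.trans (le_of_eq ?_)
    rw [mul_comm N⁻¹]
    rfl
  · exact div_nonneg (integral_nonneg hv0) hV.le

private theorem tw_HA {w : ℂ → ℝ} {K : ℝ} (hwm : Measurable w) (hpos : ∀ z, 0 < w z)
    (hw : LocallyIntegrable w volume) (hwi : LocallyIntegrable (fun z => (w z)⁻¹) volume)
    (hA : ∀ (c : ℂ) (r : ℝ), 0 < r →
        ((∫ z in Metric.ball c r, w z) / (volume (Metric.ball c r)).toReal) *
        ((∫ z in Metric.ball c r, (w z)⁻¹) / (volume (Metric.ball c r)).toReal) ≤ K)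
    {N : ℝ} (hN : 1 ≤ N) : HA (tw w N) (16 * K) := by
  have hK := one_le_K hpos hw hwi hA
  have h16 : 16 * K = 4 * (4 * K) := by ring
  rw [h16]
  have hb := tw_bw hwm hN
  refine HA_of_disc hb ?_
  intro c r hr
  obtain ⟨a, ha0, haN, ha1, ha2, ha3⟩ := avg_aux (u := w) (v := tw w N) hN hwm hpos hw hb.meas
    (fun z => (hb.wpos z).le) (fun z => tw_le hN (hpos z)) c hr
  obtain ⟨b, hb0, hbN, hb1, hb2, hb3⟩ := avg_aux (u := fun z => (w z)⁻¹)
    (v := fun z => (tw w N z)⁻¹) hN hwm.inv (fun z => inv_pos.mpr (hpos z)) hwi hb.meas.inv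
    (fun z => (inv_pos.mpr (hb.wpos z)).le) (fun z => tw_inv_le hN (hpos z)) c hr
  have h0 : 0 < N := by linarith
  have h1 : 0 < N⁻¹ := inv_pos.mpr h0
  have hNN : N⁻¹ * N = 1 := inv_mul_cancel₀ h0.ne'
  have hN1 : N⁻¹ ≤ 1 := inv_le_one_of_one_le₀ hN
  have hab : a * b ≤ K := by
    refine le_trans ?_ (hA c r hr)
    exact mul_le_mul ha1 hb1 hb0 (ha0.trans ha1)
  refine (mul_le_mul ha2 hb2 hb3 (by linarith)).trans ?_
  have e1 : N⁻¹ * a ≤ 1 := by
    rw [← hNN]
    exact mul_le_mul_of_nonneg_left haN h1.le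
  have e2 : N⁻¹ * b ≤ 1 := by
    rw [← hNN]
    exact mul_le_mul_of_nonneg_left hbN h1.le
  have e3 : N⁻¹ * N⁻¹ ≤ 1 := by nlinarith
  nlinarith

private theorem tw_bound {w : ℂ → ℝ} {N : ℝ} (hN : 1 ≤ N) {z : ℂ} (hz : 0 < w z) :
    tw w N z ≤ w z + N⁻¹ :=
  (tw_le hN hz).trans (by linarith [min_le_left (w z) N])

private theorem tw_tendsto {w : ℂ → ℝ} {z : ℂ} (hz : 0 < w z) :
    Tendsto (fun n : ℕ => ENNReal.ofReal (tw w ((n : ℝ) + 1) z)) atTop
      (𝓝 (ENNReal.ofReal (w z))) := by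
  refine tendsto_const_nhds.congr' ?_
  have h1 : ∀ᶠ n : ℕ in atTop, w z ≤ (n : ℝ) :=
    tendsto_natCast_atTop_atTop.eventually_ge_atTop (w z)
  have h2 : ∀ᶠ n : ℕ in atTop, (w z)⁻¹ ≤ (n : ℝ) :=
    tendsto_natCast_atTop_atTop.eventually_ge_atTop ((w z)⁻¹)
  filter_upwards [h1, h2] with n h3 h4
  have h5 : w z ≤ (n : ℝ) + 1 := by linarith
  have h6 : ((n : ℝ) + 1)⁻¹ ≤ w z := by
    rw [inv_le_comm₀ (by positivity) hz]
    linarith
  unfold tw
  rw [min_eq_left h5, max_eq_left h6]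

theorem all_meas_log {m : ℕ} (hm : 1 ≤ m) {w : ℂ → ℝ} {K : ℝ} (hwm : Measurable w)
    (hpos : ∀ z, 0 < w z)
    (hw : LocallyIntegrable w volume) (hwi : LocallyIntegrable (fun z => (w z)⁻¹) volume)
    (hA : ∀ (c : ℂ) (r : ℝ), 0 < r →
        ((∫ z in Metric.ball c r, w z) / (volume (Metric.ball c r)).toReal) *
        ((∫ z in Metric.ball c r, (w z)⁻¹) / (volume (Metric.ball c r)).toReal) ≤ K)
    (f : SchwartzMap ℂ ℂ) :
    ∫⁻ z, ‖gg f m z‖ₑ ^ 2 * ENNReal.ofReal (w z) ≤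
      ENNReal.ofReal ((16 * 10 ^ 11 * m * √(1 + Real.log m) * K) ^ 2) *
        ∫⁻ z, ‖f z‖ₑ ^ 2 * ENNReal.ofReal (w z) := by
  set C := ENNReal.ofReal ((16 * 10 ^ 11 * m * √(1 + Real.log m) * K) ^ 2) with hC
  have hC1 : ENNReal.ofReal ((10 ^ 11 * m * √(1 + Real.log m) * (16 * K)) ^ 2) = C := by
    rw [hC]
    congr 1
    ring
  have hb : ∀ n : ℕ, Bw (tw w ((n : ℝ) + 1)) ((n : ℝ) + 1) := fun n =>
    tw_bw hwm (by linarith [Nat.cast_nonneg (α := ℝ) n])
  have hHA : ∀ n : ℕ, HA (tw w ((n : ℝ) + 1)) (16 * K) := fun n =>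
    tw_HA hwm hpos hw hwi hA (by linarith [Nat.cast_nonneg (α := ℝ) n])
  have hgm : Measurable (gg f m) := (gg_contDiff f m).continuous.measurable
  have hfm : Measurable f := f.continuous.measurable
  set J := ∫⁻ z, ‖f z‖ₑ ^ 2 * ENNReal.ofReal (w z) with hJ
  set I := ∫⁻ z, ‖f z‖ₑ ^ 2 with hI
  have hIfin : I ≠ ⊤ := by
    have h2 : MemLp f 2 volume := f.memLp 2 volume
    have h3 := h2.2
    rw [eLpNorm_lt_top_iff_lintegral_rpow_enorm_lt_top (by norm_num) (by norm_num)] at h3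
    simp only [ENNReal.toReal_ofNat, ENNReal.rpow_ofNat] at h3
    exact h3.ne
  have hstep : ∀ n : ℕ, ∫⁻ z, ‖gg f m z‖ₑ ^ 2 * ENNReal.ofReal (tw w ((n : ℝ) + 1) z) ≤
      C * (J + ENNReal.ofReal ((n : ℝ) + 1)⁻¹ * I) := by
    intro n
    refine (bounded_log hm (hb n) (hHA n) f).trans ?_
    rw [hC1]
    refine mul_le_mul_right ?_ _
    rw [hJ, hI, ← lintegral_const_mul' _ _ ENNReal.ofReal_ne_top, ← lintegral_add_left]
    · refine lintegral_mono fun z => ?_
      have h1 : ENNReal.ofReal (tw w ((n : ℝ) + 1) z) ≤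
          ENNReal.ofReal (w z) + ENNReal.ofReal ((n : ℝ) + 1)⁻¹ := by
        rw [← ENNReal.ofReal_add (hpos z).le (by positivity)]
        exact ENNReal.ofReal_le_ofReal
          (tw_bound (by linarith [Nat.cast_nonneg (α := ℝ) n]) (hpos z))
      calc ‖f z‖ₑ ^ 2 * ENNReal.ofReal (tw w ((n : ℝ) + 1) z)
          ≤ ‖f z‖ₑ ^ 2 * (ENNReal.ofReal (w z) + ENNReal.ofReal ((n : ℝ) + 1)⁻¹) :=
            mul_le_mul_right h1 _
        _ = _ := by
            rw [mul_add, mul_comm (ENNReal.ofReal ((n : ℝ) + 1)⁻¹)]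
    · exact (hfm.enorm.pow_const 2).mul hwm.ennreal_ofReal
  have hfat : ∫⁻ z, ‖gg f m z‖ₑ ^ 2 * ENNReal.ofReal (w z) ≤
      liminf (fun n : ℕ => ∫⁻ z, ‖gg f m z‖ₑ ^ 2 * ENNReal.ofReal (tw w ((n : ℝ) + 1) z)) atTop := by
    refine le_trans (le_of_eq ?_) (lintegral_liminf_le fun n => ?_)
    · refine lintegral_congr fun z => ?_
      refine (Tendsto.liminf_eq ?_).symm
      refine ENNReal.Tendsto.const_mul (tw_tendsto (hpos z)) (Or.inr ?_)
      exact ENNReal.pow_ne_top enorm_ne_top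
    · exact (hgm.enorm.pow_const 2).mul (hb n).meas.ennreal_ofReal
  have hlim : Tendsto (fun n : ℕ => C * (J + ENNReal.ofReal ((n : ℝ) + 1)⁻¹ * I)) atTop
      (𝓝 (C * (J + 0))) := by
    refine ENNReal.Tendsto.const_mul ?_ (Or.inr ENNReal.ofReal_ne_top)
    refine tendsto_const_nhds.add ?_
    have h1 : Tendsto (fun n : ℕ => ENNReal.ofReal ((n : ℝ) + 1)⁻¹ * I) atTop
        (𝓝 (ENNReal.ofReal 0 * I)) := by
      refine ENNReal.Tendsto.mul_const ?_ (Or.inr hIfin)
      refine ENNReal.tendsto_ofReal ?_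
      have h2 := tendsto_one_div_add_atTop_nhds_zero_nat (𝕜 := ℝ)
      refine h2.congr fun n => ?_
      rw [one_div]
    rwa [ENNReal.ofReal_zero, zero_mul] at h1
  rw [add_zero] at hlim
  refine hfat.trans ?_
  rw [← hlim.liminf_eq]
  exact liminf_le_liminf (Eventually.of_forall hstep)

theorem all_log {m : ℕ} (hm : 1 ≤ m) {w : ℂ → ℝ} {K : ℝ} (hpos : ∀ z, 0 < w z)
    (hw : LocallyIntegrable w volume) (hwi : LocallyIntegrable (fun z => (w z)⁻¹) volume)
    (hA : ∀ (c : ℂ) (r : ℝ), 0 < r →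
        ((∫ z in Metric.ball c r, w z) / (volume (Metric.ball c r)).toReal) *
        ((∫ z in Metric.ball c r, (w z)⁻¹) / (volume (Metric.ball c r)).toReal) ≤ K)
    (f : SchwartzMap ℂ ℂ) :
    ∫⁻ z, ‖gg f m z‖ₑ ^ 2 * ENNReal.ofReal (w z) ≤
      ENNReal.ofReal ((16 * 10 ^ 11 * m * √(1 + Real.log m) * K) ^ 2) *
        ∫⁻ z, ‖f z‖ₑ ^ 2 * ENNReal.ofReal (w z) := by
  set v : ℂ → ℝ := fun z => if 0 < hw.aestronglyMeasurable.mk w z then
    hw.aestronglyMeasurable.mk w z else 1 with hv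
  have hmk : Measurable (hw.aestronglyMeasurable.mk w) :=
    hw.aestronglyMeasurable.stronglyMeasurable_mk.measurable
  have hvm : Measurable v :=
    Measurable.ite (measurableSet_lt measurable_const hmk) hmk measurable_const
  have hvpos : ∀ z, 0 < v z := by
    intro z
    rw [hv]
    simp only
    split_ifs with h
    · exact h
    · exact one_pos
  have hvw : ∀ᵐ z, v z = w z := by
    filter_upwards [hw.aestronglyMeasurable.ae_eq_mk] with z hz
    rw [hv]
    simp only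
    rw [← hz, if_pos (hpos z)]
  have hvl : LocallyIntegrable v volume := by
    refine hw.congr ?_
    filter_upwards [hvw] with z hz
    rw [hz]
  have hvi : LocallyIntegrable (fun z => (v z)⁻¹) volume := by
    refine hwi.congr ?_
    filter_upwards [hvw] with z hz
    rw [hz]
  have e1 : ∀ u : ℂ → ℂ, ∫⁻ z, ‖u z‖ₑ ^ 2 * ENNReal.ofReal (v z) =
      ∫⁻ z, ‖u z‖ₑ ^ 2 * ENNReal.ofReal (w z) := by
    intro u
    apply lintegral_congr_ae
    filter_upwards [hvw] with z hz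
    rw [hz]
  have hA' : ∀ (c : ℂ) (r : ℝ), 0 < r →
        ((∫ z in Metric.ball c r, v z) / (volume (Metric.ball c r)).toReal) *
        ((∫ z in Metric.ball c r, (v z)⁻¹) / (volume (Metric.ball c r)).toReal) ≤ K := by
    intro c r hr
    have h1 : ∫ z in Metric.ball c r, v z = ∫ z in Metric.ball c r, w z := by
      apply integral_congr_ae
      filter_upwards [ae_restrict_of_ae hvw] with z hz
      exact hz
    have h2 : ∫ z in Metric.ball c r, (v z)⁻¹ = ∫ z in Metric.ball c r, (w z)⁻¹ := by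
      apply integral_congr_ae
      filter_upwards [ae_restrict_of_ae hvw] with z hz
      rw [hz]
    rw [h1, h2]
    exact hA c r hr
  rw [← e1, ← e1]
  exact all_meas_log hm hvm hvpos hvl hvi hA' f

end Pool.Agent.Lib.MP_f0c028_an.SQ
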